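import Mathlib
set_option autoImplicit false
namespace Pool.Agent.Helper128.AutDiv



open scoped Pointwise in
theorem compl_conj_aux (L : Type) [Group L] (C : Subgroup L) (g : L) (hg : g ∈ C) :
    MulOpposite.op g⁻¹ • (C : Set L) = (C : Set L) := by
  ext x
  rw [Set.mem_smul_set_iff_inv_smul_mem]
  simp only [← MulOpposite.op_inv, inv_inv, MulOpposite.smul_eq_mul_unop, MulOpposite.unop_op,
    SetLike.mem_coe]
  exact C.mul_mem_cancel_right hg

theorem compl_conj (L : Type) [Group L] [Finite L] (N : Subgroup L) [N.Normal] (hN : ∀ a ∈ N, ∀ b ∈ N, a * b = b * a)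
    (hc : Nat.Coprime (Nat.card N) N.index) (H K : Subgroup L) (hH : Nat.card H = N.index) (hK : Nat.card K = N.index) :
    ∃ g : L, K = H.map (MulAut.conj g).toMonoidHom := by
  haveI : IsMulCommutative N := ⟨⟨fun a b => Subtype.ext (hN a a.2 b b.2)⟩⟩
  have key : ∀ C : Subgroup L, Nat.card C = N.index →
      ∃ α : N.QuotientDiff, MulAction.stabilizer L α = C := by
    intro C hC
    have hcomp : Subgroup.IsComplement (C : Set L) (N : Set L) := by
      apply Subgroup.isComplement'_of_coprime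
      · rw [hC, mul_comm]
        exact N.card_mul_index
      · rw [hC]
        exact hc.symm
    let T : N.LeftTransversal := ⟨(C : Set L), hcomp⟩
    let q : N.QuotientDiff := Quotient.mk'' T
    refine ⟨q, ?_⟩
    have hle : C ≤ MulAction.stabilizer L q := by
      intro g hg
      rw [MulAction.mem_stabilizer_iff]
      have hT : MulOpposite.op g⁻¹ • T = T := ?_
      · change (Quotient.mk'' (MulOpposite.op g⁻¹ • T) : N.QuotientDiff) = q
        rw [hT]
      apply Subtype.ext
      exact compl_conj_aux L C g hg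
    have hst := Subgroup.isComplement'_stabilizer_of_coprime (α := q) hc
    have hcard := hst.card_mul_card
    have h2 := N.card_mul_index
    have hpos : 0 < Nat.card N := Nat.card_pos
    have h3 : Nat.card (MulAction.stabilizer L q) = N.index := by
      apply Nat.eq_of_mul_eq_mul_left hpos
      rw [hcard, h2]
    exact (Subgroup.eq_of_le_of_card_ge hle (by rw [h3, hC])).symm
  obtain ⟨α, hα⟩ := key H hH
  obtain ⟨β, hβ⟩ := key K hK
  obtain ⟨h, hh⟩ := Subgroup.exists_smul_eq hc α β
  refine ⟨(h : L), ?_⟩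
  rw [← hβ, ← hh, ← hα]
  exact MulAction.stabilizer_smul_eq_stabilizer_map_conj (h : L) α


theorem hall_conj_step_card {L : Type} [Group L] [Finite L] (N M : Subgroup L) (h : N ≤ M) :
    Nat.card M = Nat.card N * N.relIndex M := by
  have h1 := (N.subgroupOf M).card_mul_index
  have h2 : Nat.card (N.subgroupOf M) = Nat.card N := by
    rw [← Subgroup.card_map_of_injective M.subtype_injective, Subgroup.map_subgroupOf_eq_of_le h]
  rw [← h1, h2]
  rfl

theorem hall_conj_step_cop {L : Type} [Group L] [Finite L] (p : ℕ) (N : Subgroup L) [N.Normal]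
    (hN : (Nat.card N).Coprime p) (H : Subgroup L) (hH : (Nat.card H).Coprime p)
    (hHi : ∃ n : ℕ, H.index = p ^ n) : H ⊔ N = H := by
  have h1 := hall_conj_step_card N (H ⊔ N) le_sup_right
  rw [Subgroup.relIndex_sup_right] at h1
  have h2 : (N.relIndex H).Coprime p := Nat.Coprime.coprime_dvd_left (Subgroup.relIndex_dvd_card N H) hH
  have h3 : (Nat.card (H ⊔ N : Subgroup L)).Coprime p := by
    rw [h1]; exact Nat.Coprime.mul_left hN h2
  have h4 : H.relIndex (H ⊔ N) ∣ H.index := by
    rw [← Subgroup.relIndex_mul_index (le_sup_left : H ≤ H ⊔ N)]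
    exact Dvd.intro _ rfl
  obtain ⟨n, hn⟩ := hHi
  rw [hn] at h4
  have h5 : H.relIndex (H ⊔ N) = 1 := by
    have h6 : (H.relIndex (H ⊔ N)).Coprime p :=
      Nat.Coprime.coprime_dvd_left (Subgroup.relIndex_dvd_card H (H ⊔ N)) h3
    exact Nat.eq_one_of_dvd_coprimes (Nat.Coprime.pow_right n h6) dvd_rfl h4
  exact le_antisymm (Subgroup.relIndex_eq_one.1 h5) le_sup_left

theorem conj_step (p : ℕ) (hp : p.Prime) (L : Type) [Group L] [Finite L]
    (N : Subgroup L) [N.Normal]
    (hN : (Nat.card N).Coprime p ∨ ((∃ a : ℕ, Nat.card N = p ^ a) ∧ ∀ a ∈ N, ∀ b ∈ N, a * b = b * a))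
    (ih : ∀ (H K : Subgroup (L ⧸ N)), (Nat.card H).Coprime p → (∃ n : ℕ, H.index = p ^ n) → (Nat.card K).Coprime p →
      (∃ n : ℕ, K.index = p ^ n) → ∃ g : L ⧸ N, K = H.map (MulAut.conj g).toMonoidHom)
    (H K : Subgroup L) (hH : (Nat.card H).Coprime p) (hHi : ∃ n : ℕ, H.index = p ^ n)
    (hK : (Nat.card K).Coprime p) (hKi : ∃ n : ℕ, K.index = p ^ n) :
    ∃ g : L, K = H.map (MulAut.conj g).toMonoidHom := by
  have hmapc : ∀ X : Subgroup L, (Nat.card X).Coprime p →
      (Nat.card (X.map (QuotientGroup.mk' N))).Coprime p := fun X hX =>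
    Nat.Coprime.coprime_dvd_left (Subgroup.card_map_dvd X (QuotientGroup.mk' N)) hX
  have hmapi : ∀ X : Subgroup L, (∃ n : ℕ, X.index = p ^ n) →
      (∃ n : ℕ, (X.map (QuotientGroup.mk' N)).index = p ^ n) := by
    rintro X ⟨n, hn⟩
    have h1 : (X.map (QuotientGroup.mk' N)).index ∣ X.index :=
      Subgroup.index_map_dvd X (QuotientGroup.mk'_surjective N)
    rw [hn] at h1
    obtain ⟨k, -, hk⟩ := (Nat.dvd_prime_pow hp).1 h1
    exact ⟨k, hk⟩
  obtain ⟨g', hg'⟩ := ih _ _ (hmapc H hH) (hmapi H hHi) (hmapc K hK)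
    (hmapi K hKi)
  obtain ⟨g, rfl⟩ := QuotientGroup.mk'_surjective N g'
  set H' : Subgroup L := H.map (MulAut.conj g).toMonoidHom with hH'
  have hinj : Function.Injective (MulAut.conj g).toMonoidHom := (MulAut.conj g).injective
  have hH'c : Nat.card H' = Nat.card H := Subgroup.card_map_of_injective hinj
  have hH'i : H'.index = H.index := by
    have h1 := H'.card_mul_index
    have h2 := H.card_mul_index
    rw [hH'c] at h1
    have h3 : 0 < Nat.card H := Nat.card_pos
    exact Nat.eq_of_mul_eq_mul_left h3 (h1.trans h2.symm)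
  have hmap : K.map (QuotientGroup.mk' N) = H'.map (QuotientGroup.mk' N) := by
    rw [hg', hH', Subgroup.map_map, Subgroup.map_map]
    congr 1
  have hsup : K ⊔ N = H' ⊔ N := by
    have h1 := congrArg (Subgroup.comap (QuotientGroup.mk' N)) hmap
    rw [Subgroup.comap_map_eq, Subgroup.comap_map_eq, QuotientGroup.ker_mk'] at h1
    exact h1
  suffices hsuff : ∃ g2 : L, K = H'.map (MulAut.conj g2).toMonoidHom by
    obtain ⟨g2, hg2⟩ := hsuff
    refine ⟨g2 * g, ?_⟩
    rw [hg2, hH', Subgroup.map_map]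
    congr 1
    ext x
    simp [mul_assoc]
  rcases hN with hcop | ⟨⟨a, ha⟩, hNc⟩
  · have h1 := hall_conj_step_cop p N hcop H' (by rw [hH'c]; exact hH) (by rw [hH'i]; exact hHi)
    have h2 := hall_conj_step_cop p N hcop K hK hKi
    refine ⟨1, ?_⟩
    rw [← h2, hsup, h1]
    ext x
    simp
  · -- N is a p-group
    have hinf : ∀ X : Subgroup L, (Nat.card X).Coprime p → N.relIndex X = Nat.card X := by
      intro X hX
      have h1 : Nat.card (N.subgroupOf X) = 1 := by
        have h2 : Nat.card (N.subgroupOf X) ∣ Nat.card X := Subgroup.card_subgroup_dvd_card _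
        have h3 : Nat.card (N.subgroupOf X) ∣ Nat.card N := by
          rw [← Subgroup.card_map_of_injective X.subtype_injective, Subgroup.subgroupOf_map_subtype]
          exact Subgroup.card_dvd_of_le inf_le_left
        rw [ha] at h3
        exact Nat.eq_one_of_dvd_coprimes (Nat.Coprime.pow_right a hX) h2 h3
      have h4 : N.subgroupOf X = ⊥ := Subgroup.eq_bot_of_card_eq _ h1
      unfold Subgroup.relIndex
      rw [h4, Subgroup.index_bot]
    set M : Subgroup L := H' ⊔ N with hM
    have hNM : N ≤ M := le_sup_right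
    have hHM : H' ≤ M := le_sup_left
    have hKM : K ≤ M := by rw [← hsup]; exact le_sup_left
    have hi1 : (N.subgroupOf M).index = Nat.card H' := by
      have h1 : N.relIndex M = N.relIndex H' := by rw [hM, Subgroup.relIndex_sup_right]
      exact h1.trans (hinf H' (by rw [hH'c]; exact hH))
    have hi2 : (N.subgroupOf M).index = Nat.card K := by
      have h1 : N.relIndex M = N.relIndex K := by rw [← hsup, Subgroup.relIndex_sup_right]
      exact h1.trans (hinf K hK)
    have hcs : ∀ X : Subgroup L, X ≤ M → Nat.card (X.subgroupOf M) = Nat.card X := by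
      intro X hX
      rw [← Subgroup.card_map_of_injective M.subtype_injective, Subgroup.map_subgroupOf_eq_of_le hX]
    obtain ⟨g3, hg3⟩ := compl_conj M (N.subgroupOf M) (by
        intro x hx y hy
        apply Subtype.ext
        exact hNc _ hx _ hy) (by
        rw [hcs N hNM, hi1, ha, hH'c]
        exact (Nat.Coprime.pow_left a hH.symm)) (H'.subgroupOf M) (K.subgroupOf M)
        (by rw [hcs H' hHM, hi1]) (by rw [hcs K hKM, hi2])
    refine ⟨(g3 : L), ?_⟩
    have h5 : K = (K.subgroupOf M).map M.subtype := (Subgroup.map_subgroupOf_eq_of_le hKM).symm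
    have h6 : H' = (H'.subgroupOf M).map M.subtype := (Subgroup.map_subgroupOf_eq_of_le hHM).symm
    rw [h5, hg3]
    conv_rhs => rw [h6]
    rw [Subgroup.map_map, Subgroup.map_map]
    congr 1


/-- `r`-soluble finite groups: every proper normal subgroup `M` is properly contained in a normal subgroup `N`
such that `|N : M|` is a power of `r` or is prime to `r`. -/
def RSoluble (r : ℕ) (G : Type) [Group G] : Prop :=
  ∀ M : Subgroup G, M.Normal → M ≠ ⊤ → ∃ N : Subgroup G, N.Normal ∧ M < N ∧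
    ((∃ n : ℕ, M.relIndex N = r ^ n) ∨ (M.relIndex N).Coprime r)

theorem exists_step (p : ℕ) (hp : p.Prime) (L : Type) [Group L] [Finite L] (N : Subgroup L) [N.Normal]
    (hN : (Nat.card N).Coprime p ∨ ∃ a : ℕ, Nat.card N = p ^ a)
    (ih : ∃ K' : Subgroup (L ⧸ N), (Nat.card K').Coprime p ∧ ∃ n : ℕ, K'.index = p ^ n) :
    ∃ H : Subgroup L, (Nat.card H).Coprime p ∧ ∃ n : ℕ, H.index = p ^ n := by
  have hLc : Nat.card L = Nat.card (L ⧸ N) * Nat.card N :=
    Subgroup.card_eq_card_quotient_mul_card_subgroup N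
  obtain ⟨K', hK', n, hn'⟩ := ih
  set K : Subgroup L := K'.comap (QuotientGroup.mk' N) with hK
  have hKi : K.index = p ^ n := by
    rw [hK, Subgroup.index_comap_of_surjective _ (QuotientGroup.mk'_surjective N), hn']
  have hpn : 0 < p ^ n := pow_pos hp.pos n
  have hKc : Nat.card K = Nat.card K' * Nat.card N := by
    have h1 := K.card_mul_index
    have h2 := K'.card_mul_index
    rw [hKi, hLc, ← h2, hn'] at h1
    have h3 : Nat.card K * p ^ n = (Nat.card K' * Nat.card N) * p ^ n := by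
      rw [h1]; ring
    exact Nat.eq_of_mul_eq_mul_right hpn h3
  rcases hN with hcop | ⟨k, hk⟩
  · exact ⟨K, by rw [hKc]; exact Nat.Coprime.mul_left hK' hcop, n, hKi⟩
  · have hNK : N ≤ K := by
      intro x hx
      rw [hK, Subgroup.mem_comap]
      have : QuotientGroup.mk' N x = 1 := (QuotientGroup.eq_one_iff x).mpr hx
      rw [this]
      exact K'.one_mem
    set N' : Subgroup K := N.subgroupOf K with hN'
    have hN'c : Nat.card N' = Nat.card N :=
      Nat.card_congr (Subgroup.subgroupOfEquivOfLe hNK).toEquiv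
    have hNpos : 0 < Nat.card N := Nat.card_pos
    have hN'i : N'.index = Nat.card K' := by
      have h1 := N'.card_mul_index
      rw [hN'c, hKc, mul_comm (Nat.card K')] at h1
      exact Nat.eq_of_mul_eq_mul_left hNpos h1
    have hco : Nat.Coprime (Nat.card N') N'.index := by
      rw [hN'c, hN'i, hk]
      exact (hK'.symm).pow_left k
    have : N'.Normal := inferInstance
    obtain ⟨H0, hH0⟩ := Subgroup.exists_right_complement'_of_coprime hco
    have hH0c : Nat.card H0 = Nat.card K' := by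
      rw [← hN'i]
      exact (hH0.symm.index_eq_card).symm
    set H : Subgroup L := H0.map K.subtype with hH
    have hHc : Nat.card H = Nat.card K' := by
      rw [← hH0c]
      exact (Nat.card_congr (H0.equivMapOfInjective K.subtype K.subtype_injective).toEquiv).symm
    refine ⟨H, by rw [hHc]; exact hK', k + n, ?_⟩
    have h1 := H.card_mul_index
    have hK'pos : 0 < Nat.card K' := Nat.card_pos
    have h2 := K'.card_mul_index
    rw [hHc, hLc, ← h2, hn', hk] at h1
    have h3 : Nat.card K' * H.index = Nat.card K' * p ^ (k + n) := by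
      rw [h1]; ring
    exact Nat.eq_of_mul_eq_mul_left hK'pos h3

theorem rs_quot (r : ℕ) (G : Type) [Group G] (h : RSoluble r G) (N : Subgroup G) [N.Normal] :
    RSoluble r (G ⧸ N) := by
  intro M' hM' hM't
  have hsurj := QuotientGroup.mk'_surjective N
  have hMn : (M'.comap (QuotientGroup.mk' N)).Normal := inferInstance
  have hMt : M'.comap (QuotientGroup.mk' N) ≠ ⊤ := by
    intro hh
    apply hM't
    have := congrArg (Subgroup.map (QuotientGroup.mk' N)) hh
    rw [Subgroup.map_comap_eq_self_of_surjective hsurj, Subgroup.map_top_of_surjective _ hsurj] at this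
    exact this
  obtain ⟨N1, hN1, hlt, hidx⟩ := h _ hMn hMt
  have hrel : (M'.comap (QuotientGroup.mk' N)).relIndex N1 = M'.relIndex (N1.map (QuotientGroup.mk' N)) :=
    Subgroup.relIndex_comap M' (QuotientGroup.mk' N) N1
  refine ⟨N1.map (QuotientGroup.mk' N), hN1.map _ hsurj, ?_, ?_⟩
  · refine lt_of_le_of_ne ?_ ?_
    · have := Subgroup.map_mono (f := QuotientGroup.mk' N) hlt.le
      rwa [Subgroup.map_comap_eq_self_of_surjective hsurj] at this
    · intro hh
      apply hlt.ne
      apply le_antisymm hlt.le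
      rw [hh, Subgroup.comap_map_eq]
      exact le_sup_left
  · rw [← hrel]; exact hidx

theorem rs_min (r : ℕ) (hr : r.Prime) (G : Type) [Group G] [Finite G] (h : RSoluble r G) (hn : Nontrivial G) :
    ∃ N : Subgroup G, N.Normal ∧ N ≠ ⊥ ∧
      ((Nat.card N).Coprime r ∨ ((∃ a : ℕ, Nat.card N = r ^ a) ∧ ∀ a ∈ N, ∀ b ∈ N, a * b = b * a)) := by
  have hfact : Fact r.Prime := ⟨hr⟩
  obtain ⟨N, hN, hlt, hidx⟩ := h ⊥ inferInstance bot_ne_top
  rw [Subgroup.relIndex_bot_left] at hidx
  rcases hidx with ⟨n, hn'⟩ | hc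
  · have hp : IsPGroup r N := IsPGroup.of_card hn'
    have hnt : Nontrivial N := (Subgroup.nontrivial_iff_ne_bot N).mpr hlt.ne'
    have hzn : Nontrivial (Subgroup.center N) := hp.center_nontrivial
    refine ⟨(Subgroup.center N).map N.subtype, ?_, ?_, Or.inr ⟨?_, ?_⟩⟩
    · exact inferInstance
    · intro hb
      rw [Subgroup.map_eq_bot_iff_of_injective _ N.subtype_injective] at hb
      exact (Subgroup.nontrivial_iff_ne_bot _).mp hzn hb
    · have h1 : Nat.card ((Subgroup.center N).map N.subtype) = Nat.card (Subgroup.center N) :=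
        Subgroup.card_map_of_injective N.subtype_injective
      have h2 : Nat.card (Subgroup.center N) ∣ Nat.card N := Subgroup.card_subgroup_dvd_card _
      rw [hn'] at h2
      obtain ⟨k, -, hk⟩ := (Nat.dvd_prime_pow hr).1 h2
      exact ⟨k, by rw [h1, hk]⟩
    · rintro a ⟨x, hx, rfl⟩ b ⟨y, hy, rfl⟩
      have h1 := (Subgroup.mem_center_iff.mp hx y)
      have h2 := congrArg N.subtype h1
      simpa using h2.symm
  · exact ⟨N, hN, hlt.ne', Or.inl hc⟩

theorem rs_hall_exists (r : ℕ) (hr : r.Prime) (m : ℕ) : ∀ (G : Type) [Group G] [Finite G], Nat.card G = m →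
    RSoluble r G → ∃ H : Subgroup G, (Nat.card H).Coprime r ∧ ∃ n : ℕ, H.index = r ^ n := by
  induction m using Nat.strong_induction_on with
  | _ m ih =>
    intro G _ _ hcard hs
    by_cases hn : Nontrivial G
    · obtain ⟨N, hN, hNb, hNc⟩ := rs_min r hr G hs hn
      refine exists_step r hr G N (hNc.imp id (fun h => h.1)) ?_
      have hcardq : Nat.card (G ⧸ N) < Nat.card G := by
        rw [Subgroup.card_eq_card_quotient_mul_card_subgroup N]
        have h1 : 1 < Nat.card N := by
          rw [← Subgroup.one_lt_card_iff_ne_bot] at hNb; exact hNb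
        have h2 : 0 < Nat.card (G ⧸ N) := Nat.card_pos
        nlinarith
      exact ih _ (hcard ▸ hcardq) (G ⧸ N) rfl (rs_quot r G hs N)
    · refine ⟨⊥, ?_, 0, ?_⟩
      · simp
      · have : Subsingleton G := not_nontrivial_iff_subsingleton.mp hn
        rw [pow_zero, Subgroup.index_eq_one]
        exact Subsingleton.elim _ _

theorem exists_normal_elem (L : Type) [Group L] [Finite L] (hs : Group.IsSolvable L) (hn : Nontrivial L) :
    ∃ (q : ℕ) (_ : q.Prime) (N : Subgroup L), N.Normal ∧ N ≠ ⊥ ∧ IsPGroup q N ∧ ∀ a ∈ N, ∀ b ∈ N, a * b = b * a := by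
  classical
  have hex : ∃ n, derivedSeries L n = ⊥ := hs.solvable
  set n := Nat.find hex with hn'
  have hnb : derivedSeries L n = ⊥ := Nat.find_spec hex
  have hn0 : n ≠ 0 := by
    intro h0
    rw [h0] at hnb
    have : (⊤ : Subgroup L) = ⊥ := hnb
    exact top_ne_bot this
  obtain ⟨m, hm⟩ : ∃ m, n = m + 1 := ⟨n - 1, by omega⟩
  set A := derivedSeries L m with hA
  have hAne : A ≠ ⊥ := Nat.find_min hex (by omega : m < n)
  have hAn : A.Normal := derivedSeries_normal L m
  have hAA : ⁅A, A⁆ = ⊥ := by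
    rw [hm, derivedSeries_succ] at hnb
    exact hnb
  have hcomm : ∀ a ∈ A, ∀ b ∈ A, Commute a b := by
    intro a ha b hb
    rw [Subgroup.commutator_eq_bot_iff_le_centralizer] at hAA
    have := hAA ha
    rw [Subgroup.mem_centralizer_iff] at this
    exact (this b hb).symm
  have hAnt : Nontrivial A := (Subgroup.nontrivial_iff_ne_bot A).mpr hAne
  have hcard : Nat.card A ≠ 1 := by
    have := Finite.one_lt_card (α := A)
    omega
  obtain ⟨q, hq, hqd⟩ := Nat.exists_prime_and_dvd hcard
  let N : Subgroup L :=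
    { carrier := {a | a ∈ A ∧ a ^ q = 1}
      mul_mem' := by
        rintro a b ⟨ha, ha'⟩ ⟨hb, hb'⟩
        refine ⟨A.mul_mem ha hb, ?_⟩
        rw [(hcomm a ha b hb).mul_pow, ha', hb', one_mul]
      one_mem' := ⟨A.one_mem, one_pow q⟩
      inv_mem' := by
        rintro a ⟨ha, ha'⟩
        exact ⟨A.inv_mem ha, by rw [inv_pow, ha', inv_one]⟩ }
  refine ⟨q, hq, N, ?_, ?_, ?_, fun a ha b hb => hcomm a ha.1 b hb.1⟩
  · constructor
    rintro a ⟨ha, ha'⟩ g
    refine ⟨hAn.conj_mem a ha g, ?_⟩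
    rw [conj_pow, ha', mul_one, mul_inv_cancel]
  · have : Fact q.Prime := ⟨hq⟩
    obtain ⟨x, hx⟩ := exists_prime_orderOf_dvd_card' q hqd
    intro hbot
    have hxN : (x : L) ∈ N := by
      refine ⟨x.2, ?_⟩
      have : x ^ q = 1 := by rw [← hx]; exact pow_orderOf_eq_one x
      exact_mod_cast congrArg Subtype.val this
    rw [hbot, Subgroup.mem_bot] at hxN
    have h1 : x = 1 := Subtype.ext hxN
    rw [h1, orderOf_one] at hx
    exact hq.one_lt.ne hx
  · intro g
    refine ⟨1, ?_⟩
    rw [pow_one]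
    exact Subtype.ext g.2.2



theorem rs_of_soluble (r : ℕ) (hr : r.Prime) (G : Type) [Group G] [Finite G] (hs : Group.IsSolvable G) :
    RSoluble r G := by
  intro M hM hMt
  have hsurj := QuotientGroup.mk'_surjective M
  have hnt : Nontrivial (G ⧸ M) := QuotientGroup.nontrivial_iff.mpr hMt
  obtain ⟨q, hq, N', hN', hNb, hNq, -⟩ := exists_normal_elem (G ⧸ M) inferInstance hnt
  have hfact : Fact q.Prime := ⟨hq⟩
  have hmc : (N'.comap (QuotientGroup.mk' M)).map (QuotientGroup.mk' M) = N' :=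
    Subgroup.map_comap_eq_self_of_surjective hsurj N'
  have hrel : M.relIndex (N'.comap (QuotientGroup.mk' M)) = Nat.card N' := by
    have h1 := Subgroup.relIndex_comap (⊥ : Subgroup (G ⧸ M)) (QuotientGroup.mk' M) (N'.comap (QuotientGroup.mk' M))
    rw [MonoidHom.comap_bot, QuotientGroup.ker_mk', hmc, Subgroup.relIndex_bot_left] at h1
    exact h1
  refine ⟨N'.comap (QuotientGroup.mk' M), inferInstance, ?_, ?_⟩
  · refine lt_of_le_of_ne ?_ ?_
    · intro x hx
      rw [Subgroup.mem_comap]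
      have : QuotientGroup.mk' M x = 1 := (QuotientGroup.eq_one_iff x).mpr hx
      rw [this]
      exact N'.one_mem
    · intro hh
      apply hNb
      rw [← hmc, ← hh]
      rw [Subgroup.map_eq_bot_iff, QuotientGroup.ker_mk']
  · rw [hrel]
    obtain ⟨a, ha⟩ := IsPGroup.iff_card.1 hNq
    by_cases hqr : q = r
    · subst hqr
      exact Or.inl ⟨a, ha⟩
    · right
      rw [ha]
      exact Nat.Coprime.pow_left a ((Nat.coprime_primes hq hr).2 hqr)



theorem rs_hall_conj (r : ℕ) (hr : r.Prime) (m : ℕ) : ∀ (G : Type) [Group G] [Finite G], Nat.card G = m →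
    RSoluble r G → ∀ (H K : Subgroup G), (Nat.card H).Coprime r → (∃ n : ℕ, H.index = r ^ n) →
    (Nat.card K).Coprime r → (∃ n : ℕ, K.index = r ^ n) → ∃ g : G, K = H.map (MulAut.conj g).toMonoidHom := by
  induction m using Nat.strong_induction_on with
  | _ m ih =>
    intro G _ _ hcard hs H K hH hHi hK hKi
    by_cases hn : Nontrivial G
    · obtain ⟨N, hN, hNb, hNc⟩ := rs_min r hr G hs hn
      refine conj_step r hr G N hNc ?_ H K hH hHi hK hKi
      have hcardq : Nat.card (G ⧸ N) < Nat.card G := by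
        rw [Subgroup.card_eq_card_quotient_mul_card_subgroup N]
        have h1 : 1 < Nat.card N := by
          rw [← Subgroup.one_lt_card_iff_ne_bot] at hNb; exact hNb
        have h2 : 0 < Nat.card (G ⧸ N) := Nat.card_pos
        nlinarith
      intro H K hH hHi hK hKi
      exact ih _ (hcard ▸ hcardq) (G ⧸ N) rfl (rs_quot r G hs N) H K hH hHi hK hKi
    · refine ⟨1, ?_⟩
      have : Subsingleton G := not_nontrivial_iff_subsingleton.mp hn
      exact Subsingleton.elim _ _




theorem pair_conj_map {G : Type} [Group G] (H : Subgroup G) (g a : G) (ha : a ∈ H) :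
    H.map (MulAut.conj (g * a)).toMonoidHom = H.map (MulAut.conj g).toMonoidHom := by
  ext y
  simp only [Subgroup.mem_map, MulEquiv.toMonoidHom_eq_coe, MonoidHom.coe_coe, MulAut.conj_apply]
  constructor
  · rintro ⟨x, hx, rfl⟩
    exact ⟨a * x * a⁻¹, H.mul_mem (H.mul_mem ha hx) (H.inv_mem ha), by group⟩
  · rintro ⟨x, hx, rfl⟩
    exact ⟨a⁻¹ * x * a, H.mul_mem (H.mul_mem (H.inv_mem ha) hx) ha, by group⟩

theorem pair_conj_prod {G : Type} [Group G] [Finite G] (H P : Subgroup G)
    (hc : H.index.Coprime P.index) (g : G) : ∃ p ∈ P, p⁻¹ * g ∈ H := by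
  have h1 : H.relIndex P * P.index = (H ⊓ P).index := by
    rw [← Subgroup.inf_relIndex_right]
    exact Subgroup.relIndex_mul_index inf_le_right
  have h2 : P.relIndex H * H.index = (H ⊓ P).index := by
    rw [← Subgroup.inf_relIndex_left H P]
    exact Subgroup.relIndex_mul_index inf_le_left
  have h3 : H.index ∣ H.relIndex P := by
    refine hc.dvd_of_dvd_mul_right ?_
    rw [h1, ← h2]
    exact Dvd.intro_left _ rfl
  let e := Subgroup.quotientSubgroupOfEmbeddingOfLE H (le_top : P ≤ ⊤)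
  have h4 : Nat.card (P ⧸ H.subgroupOf P) = H.relIndex P := rfl
  have h5 : Nat.card ((⊤ : Subgroup G) ⧸ H.subgroupOf ⊤) = H.index :=
    Subgroup.relIndex_top_right H
  have h6 : Nat.card ((⊤ : Subgroup G) ⧸ H.subgroupOf ⊤) ≤ Nat.card (P ⧸ H.subgroupOf P) := by
    rw [h4, h5]
    refine Nat.le_of_dvd ?_ h3
    exact Nat.pos_of_ne_zero Subgroup.FiniteIndex.index_ne_zero
  have h7 : Function.Bijective e := e.injective.bijective_of_nat_card_le h6
  obtain ⟨q, hq⟩ := h7.2 (QuotientGroup.mk (⟨g, Subgroup.mem_top g⟩ : (⊤ : Subgroup G)))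
  obtain ⟨p, rfl⟩ := QuotientGroup.mk_surjective q
  refine ⟨p, p.2, ?_⟩
  have h8 : (QuotientGroup.mk (⟨p.1, Subgroup.mem_top p.1⟩ : (⊤ : Subgroup G)) :
      (⊤ : Subgroup G) ⧸ H.subgroupOf ⊤) =
      QuotientGroup.mk (⟨g, Subgroup.mem_top g⟩ : (⊤ : Subgroup G)) := hq
  have h9 := QuotientGroup.eq.1 h8
  exact Subgroup.mem_subgroupOf.1 h9


theorem pair_conj (r : ℕ) [Fact r.Prime] (G : Type) [Group G] [Finite G] (P : Sylow r G) (H : Subgroup G)
    (hHi : ∃ n : ℕ, H.index = r ^ n) (α : MulAut G)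
    (hα : ∃ g : G, H.map α.toMonoidHom = H.map (MulAut.conj g).toMonoidHom) :
    ∃ x : G, H.map α.toMonoidHom = H.map (MulAut.conj x).toMonoidHom ∧
      (P : Subgroup G).map α.toMonoidHom = (P : Subgroup G).map (MulAut.conj x).toMonoidHom := by
  obtain ⟨n, hn⟩ := hHi
  obtain ⟨g, hg⟩ := hα
  obtain ⟨h, hh⟩ := MulAction.exists_smul_eq G P (α • P)
  have hP : (P : Subgroup G).map α.toMonoidHom =
      (P : Subgroup G).map (MulAut.conj h).toMonoidHom := by
    have h1 := congrArg (fun Q : Sylow r G => (Q : Subgroup G)) hh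
    exact h1.symm
  have hc : H.index.Coprime (P : Subgroup G).index := by
    rw [hn]
    exact Nat.Coprime.pow_left n ((Nat.Prime.coprime_iff_not_dvd Fact.out).2 P.not_dvd_index)
  obtain ⟨p, hp, hpa⟩ := pair_conj_prod H P hc (h⁻¹ * g)
  refine ⟨g * (p⁻¹ * (h⁻¹ * g))⁻¹, ?_, ?_⟩
  · rw [pair_conj_map H g _ (H.inv_mem hpa), hg]
  · have e : g * (p⁻¹ * (h⁻¹ * g))⁻¹ = h * p := by group
    rw [e, pair_conj_map _ h p hp, hP]

/-- the automorphisms that fix two subgroups -/
def stab2 (G : Type) [Group G] (H P : Subgroup G) : Subgroup (MulAut G) where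
  carrier := {α | H.map α.toMonoidHom = H ∧ P.map α.toMonoidHom = P}
  mul_mem' := by
    rintro a b ⟨h1, h2⟩ ⟨h3, h4⟩
    constructor
    · calc H.map (a * b).toMonoidHom = (H.map b.toMonoidHom).map a.toMonoidHom := by
            rw [Subgroup.map_map]; rfl
        _ = H := by rw [h3, h1]
    · calc P.map (a * b).toMonoidHom = (P.map b.toMonoidHom).map a.toMonoidHom := by
            rw [Subgroup.map_map]; rfl
        _ = P := by rw [h4, h2]
  one_mem' := ⟨Subgroup.map_id _, Subgroup.map_id _⟩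
  inv_mem' := by
    rintro a ⟨h1, h2⟩
    constructor
    · calc H.map a⁻¹.toMonoidHom = (H.map a.toMonoidHom).map a⁻¹.toMonoidHom := by rw [h1]
        _ = H.map (a⁻¹ * a).toMonoidHom := by rw [Subgroup.map_map]; rfl
        _ = H := by rw [inv_mul_cancel]; exact Subgroup.map_id _
    · calc P.map a⁻¹.toMonoidHom = (P.map a.toMonoidHom).map a⁻¹.toMonoidHom := by rw [h2]
        _ = P.map (a⁻¹ * a).toMonoidHom := by rw [Subgroup.map_map]; rfl
        _ = P := by rw [inv_mul_cancel]; exact Subgroup.map_id _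




theorem cad_ker (G : Type) [Group G] : (MulAut.conj : G →* MulAut G).ker = Subgroup.center G := by
  ext x
  rw [MonoidHom.mem_ker, Subgroup.mem_center_iff]
  constructor
  · intro h g
    have h1 := congrArg (fun α : MulAut G => α g) h
    simp only [MulAut.conj_apply, MulAut.one_apply] at h1
    calc g * x = (x * g * x⁻¹) * x := by rw [h1]
      _ = x * g := by group
  · intro h
    ext g
    rw [MulAut.conj_apply, MulAut.one_apply, ← h g]
    group

theorem cad_normal (G : Type) [Group G] : ((MulAut.conj : G →* MulAut G).range).Normal := by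
  constructor
  rintro _ ⟨x, rfl⟩ α
  refine ⟨α x, ?_⟩
  ext g
  simp [MulAut.conj_apply, MulAut.mul_apply, MulAut.inv_apply]

theorem card_aut_dvd (G : Type) [Group G] [Finite G] (B : Subgroup (MulAut G))
    (h : ∀ α : MulAut G, ∃ x : G, ∃ b ∈ B, α = MulAut.conj x * b) :
    Nat.card (MulAut G) ∣ Nat.card (G ⧸ Subgroup.center G) * Nat.card B := by
  haveI := cad_normal G
  have h1 : Nat.card (G ⧸ Subgroup.center G) = Nat.card (MulAut.conj : G →* MulAut G).range := by
    rw [← cad_ker G]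
    exact Nat.card_congr (QuotientGroup.quotientKerEquivRange (MulAut.conj : G →* MulAut G)).toEquiv
  rw [h1, ← Subgroup.card_mul_index (MulAut.conj : G →* MulAut G).range]
  refine mul_dvd_mul_left _ ?_
  have hsurj : Function.Surjective ((QuotientGroup.mk' (MulAut.conj : G →* MulAut G).range).comp B.subtype) := by
    intro q
    obtain ⟨α, rfl⟩ := QuotientGroup.mk'_surjective _ q
    obtain ⟨x, b, hb, rfl⟩ := h α
    refine ⟨⟨b, hb⟩, ?_⟩
    rw [map_mul]
    have h2 : QuotientGroup.mk' (MulAut.conj : G →* MulAut G).range (MulAut.conj x) = 1 := by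
      rw [← MonoidHom.mem_ker, QuotientGroup.ker_mk']
      exact ⟨x, rfl⟩
    rw [h2, one_mul]
    rfl
  exact Subgroup.card_dvd_of_surjective _ hsurj




theorem inv_sylow (r p : ℕ) [Fact r.Prime] [Fact p.Prime] (G : Type) [Group G] [Finite G] (H : Subgroup G)
    (hH : (Nat.card H).Coprime r) (hp : ¬ p ∣ H.index) (R : Subgroup (MulAut G)) (hR : IsPGroup r R)
    (hRH : ∀ ρ ∈ R, H.map ρ.toMonoidHom = H) :
    ∃ Q : Sylow p G, ∀ ρ ∈ R, (Q : Subgroup G).map ρ.toMonoidHom = Q := by
  have hmem : ∀ ρ ∈ R, ∀ h ∈ H, ρ h ∈ H := by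
    intro ρ hρ h hh
    have h1 : ρ h ∈ H.map ρ.toMonoidHom := ⟨h, hh, rfl⟩
    rwa [hRH ρ hρ] at h1
  let act : MulDistribMulAction R H :=
    { smul := fun ρ h => ⟨ρ.1 h.1, hmem ρ.1 ρ.2 h.1 h.2⟩
      one_smul := fun h => Subtype.ext rfl
      mul_smul := fun a b h => Subtype.ext rfl
      smul_mul := fun a x y => Subtype.ext (map_mul a.1 x.1 y.1)
      smul_one := fun a => Subtype.ext (map_one a.1) }
  have hcard : ¬ r ∣ Nat.card (Sylow p H) := by
    intro hd
    have P : Sylow p H := default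
    have h1 : r ∣ Nat.card H := (hd.trans P.card_dvd_index).trans (P : Subgroup H).index_dvd_card
    have h2 : r ∣ Nat.gcd (Nat.card H) r := Nat.dvd_gcd h1 dvd_rfl
    rw [hH] at h2
    exact (Fact.out : r.Prime).one_lt.ne' (Nat.dvd_one.1 h2)
  obtain ⟨P, hP⟩ := hR.nonempty_fixed_point_of_prime_not_dvd_card (Sylow p H) hcard
  have hK : IsPGroup p ((P : Subgroup H).map H.subtype) := P.isPGroup'.map H.subtype
  have hidx : ¬ p ∣ ((P : Subgroup H).map H.subtype).index := by
    rw [Subgroup.index_map_subtype]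
    intro hd
    rcases (Fact.out : p.Prime).dvd_mul.1 hd with h | h
    · exact P.not_dvd_index h
    · exact hp h
  refine ⟨hK.toSylow hidx, ?_⟩
  intro ρ hρ
  have hfix : (⟨ρ, hρ⟩ : R) • P = P := hP ⟨ρ, hρ⟩
  have hfix' : ∀ h : H, h ∈ (P : Subgroup H) → (⟨ρ, hρ⟩ : R) • h ∈ (P : Subgroup H) := by
    intro h hh
    have h1 : (⟨ρ, hρ⟩ : R) • h ∈ (((⟨ρ, hρ⟩ : R) • P : Sylow p H) : Subgroup H) :=
      Subgroup.smul_mem_pointwise_smul h (⟨ρ, hρ⟩ : R) (P : Subgroup H) hh
    rwa [hfix] at h1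
  have hle : (((P : Subgroup H).map H.subtype)).map ρ.toMonoidHom ≤ (P : Subgroup H).map H.subtype := by
    rintro x ⟨y, ⟨h, hh, rfl⟩, rfl⟩
    exact ⟨(⟨ρ, hρ⟩ : R) • h, hfix' h hh, rfl⟩
  change (((P : Subgroup H).map H.subtype)).map ρ.toMonoidHom = (P : Subgroup H).map H.subtype
  refine Subgroup.eq_of_le_of_card_ge hle ?_
  rw [Subgroup.card_map_of_injective (f := ρ.toMonoidHom) ρ.injective]




/-- restriction of automorphisms in `R` to an `R`-invariant subgroup -/
def card_R_dvd_restr {G : Type} [Group G] (R : Subgroup (MulAut G)) (H : Subgroup G)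
    (hH : ∀ ρ ∈ R, H.map ρ.toMonoidHom = H) : R →* MulAut H where
  toFun ρ :=
    { toFun := fun x => ⟨ρ.1 x.1, by
        have h := hH ρ.1 ρ.2
        have h2 : ρ.1 x.1 ∈ H.map ρ.1.toMonoidHom := ⟨x.1, x.2, rfl⟩
        rwa [h] at h2⟩
      invFun := fun x => ⟨(ρ⁻¹).1 x.1, by
        have h := hH (ρ⁻¹).1 (ρ⁻¹).2
        have h2 : (ρ⁻¹).1 x.1 ∈ H.map (ρ⁻¹).1.toMonoidHom := ⟨x.1, x.2, rfl⟩
        rwa [h] at h2⟩
      left_inv := by
        intro x
        apply Subtype.ext
        show (ρ⁻¹).1 (ρ.1 x.1) = x.1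
        rw [Subgroup.coe_inv]
        exact MulAut.inv_apply_self G ρ.1 x.1
      right_inv := by
        intro x
        apply Subtype.ext
        show ρ.1 ((ρ⁻¹).1 x.1) = x.1
        rw [Subgroup.coe_inv]
        exact MulAut.apply_inv_self G ρ.1 x.1
      map_mul' := by
        intro x y
        apply Subtype.ext
        exact map_mul ρ.1 x.1 y.1 }
  map_one' := by
    ext x
    rfl
  map_mul' := by
    intro a b
    ext x
    rfl

theorem card_R_dvd_restr_apply {G : Type} [Group G] (R : Subgroup (MulAut G)) (H : Subgroup G)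
    (hH : ∀ ρ ∈ R, H.map ρ.toMonoidHom = H) (ρ : R) (x : H) :
    ((card_R_dvd_restr R H hH ρ x : H) : G) = ρ.1 x.1 := rfl

theorem card_R_dvd (G : Type) [Group G] [Finite G] (Q : ∀ p ∈ (Nat.card G).primeFactors, Sylow p G)
    (R : Subgroup (MulAut G))
    (hR : ∀ (p : ℕ) (hp : p ∈ (Nat.card G).primeFactors), ∀ ρ ∈ R, (Q p hp : Subgroup G).map ρ.toMonoidHom = Q p hp) :
    Nat.card R ∣ ∏ p : (Nat.card G).primeFactors, Nat.card (MulAut (↥(Q p.1 p.2 : Subgroup G))) := by
  classical
  let f : R →* (∀ p : (Nat.card G).primeFactors, MulAut (↥(Q p.1 p.2 : Subgroup G))) :=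
    MonoidHom.pi (fun p : (Nat.card G).primeFactors =>
      card_R_dvd_restr R (Q p.1 p.2 : Subgroup G) (hR p.1 p.2))
  have hf : Function.Injective f := by
    rw [injective_iff_map_eq_one]
    intro ρ hρ
    have hfix : ∀ (p : ℕ) (hp : p ∈ (Nat.card G).primeFactors), ∀ x ∈ (Q p hp : Subgroup G),
        ρ.1 x = x := by
      intro p hp x hx
      have h1 : f ρ ⟨p, hp⟩ = 1 := by rw [hρ]; rfl
      have h2 : ((f ρ ⟨p, hp⟩ : MulAut (↥(Q p hp : Subgroup G))) ⟨x, hx⟩ : G) = x := by
        rw [h1]; rfl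
      exact h2
    -- the subgroup of fixed points
    let F : Subgroup G := MonoidHom.eqLocus ρ.1.toMonoidHom (MonoidHom.id G)
    have hmem : ∀ x, x ∈ F ↔ ρ.1 x = x := fun x => Iff.rfl
    have hle : ∀ (p : ℕ) (hp : p ∈ (Nat.card G).primeFactors), (Q p hp : Subgroup G) ≤ F := by
      intro p hp x hx
      exact (hmem x).2 (hfix p hp x hx)
    have hdvd : Nat.card G ∣ Nat.card F := by
      rw [Nat.dvd_iff_prime_pow_dvd_dvd]
      intro p k hpp hk
      rcases Nat.eq_zero_or_pos k with hk0 | hk0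
      · subst hk0
        simp
      · have hpdvd : p ∣ Nat.card G := (dvd_pow_self p hk0.ne').trans hk
        have hp : p ∈ (Nat.card G).primeFactors :=
          Nat.mem_primeFactors.2 ⟨hpp, hpdvd, Nat.card_pos.ne'⟩
        have : Fact p.Prime := ⟨hpp⟩
        have h1 : Nat.card (Q p hp : Subgroup G) = p ^ (Nat.card G).factorization p :=
          Sylow.card_eq_multiplicity (Q p hp)
        have h2 : k ≤ (Nat.card G).factorization p :=
          (hpp.pow_dvd_iff_le_factorization Nat.card_pos.ne').1 hk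
        have h3 : p ^ k ∣ Nat.card (Q p hp : Subgroup G) := by
          rw [h1]
          exact pow_dvd_pow p h2
        exact h3.trans (Subgroup.card_dvd_of_le (hle p hp))
    have hFtop : F = ⊤ := by
      apply Subgroup.eq_top_of_le_card
      exact Nat.le_of_dvd Nat.card_pos hdvd
    apply Subtype.ext
    apply MulEquiv.ext
    intro x
    have hx : x ∈ F := by rw [hFtop]; exact Subgroup.mem_top x
    exact (hmem x).1 hx
  have h := Subgroup.card_dvd_of_injective f hf
  rwa [Nat.card_pi] at h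




theorem card_mulAut_sylow (p : ℕ) [Fact p.Prime] (G : Type) [Group G] [Finite G] (P Q : Sylow p G) :
    Nat.card (MulAut (↥(P : Subgroup G))) = Nat.card (MulAut (↥(Q : Subgroup G))) := by
  exact Nat.card_congr (MulAut.congr (P.equiv Q)).toEquiv


/-- the `r`-part of the divisibility -/
theorem r_part (G : Type) [Group G] [Finite G] (P : ∀ p ∈ (Nat.card G).primeFactors, Sylow p G)
    (r : ℕ) (hr : r.Prime) (H : Subgroup G) (hH : (Nat.card H).Coprime r) (hHi : ∃ n : ℕ, H.index = r ^ n)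
    (hc : ∀ α : MulAut G, ∃ g : G, H.map α.toMonoidHom = H.map (MulAut.conj g).toMonoidHom)
    (k : ℕ) (hk : r ^ k ∣ Nat.card (MulAut G)) :
    r ^ k ∣ Nat.card (G ⧸ Subgroup.center G) *
      ∏ p : (Nat.card G).primeFactors, Nat.card (MulAut (↥(P p.1 p.2 : Subgroup G))) := by
  classical
  haveI : Fact r.Prime := ⟨hr⟩
  obtain ⟨P0, hP0⟩ : ∃ P0 : Sylow r G, True := ⟨default, trivial⟩
  set B := stab2 G H P0 with hB
  have hA : Nat.card (MulAut G) ∣ Nat.card (G ⧸ Subgroup.center G) * Nat.card B := by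
    refine card_aut_dvd G B ?_
    intro α
    obtain ⟨x, h1, h2⟩ := pair_conj r G P0 H hHi α (hc α)
    refine ⟨x, (MulAut.conj x)⁻¹ * α, ⟨?_, ?_⟩, by rw [mul_inv_cancel_left]⟩
    · calc H.map ((MulAut.conj x)⁻¹ * α).toMonoidHom = (H.map α.toMonoidHom).map ((MulAut.conj x)⁻¹).toMonoidHom := by
            rw [Subgroup.map_map]; rfl
        _ = (H.map (MulAut.conj x).toMonoidHom).map ((MulAut.conj x)⁻¹).toMonoidHom := by rw [h1]
        _ = H.map ((MulAut.conj x)⁻¹ * MulAut.conj x).toMonoidHom := by rw [Subgroup.map_map]; rfl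
        _ = H := by rw [inv_mul_cancel]; exact Subgroup.map_id _
    · calc (P0 : Subgroup G).map ((MulAut.conj x)⁻¹ * α).toMonoidHom
            = ((P0 : Subgroup G).map α.toMonoidHom).map ((MulAut.conj x)⁻¹).toMonoidHom := by
            rw [Subgroup.map_map]; rfl
        _ = ((P0 : Subgroup G).map (MulAut.conj x).toMonoidHom).map ((MulAut.conj x)⁻¹).toMonoidHom := by rw [h2]
        _ = (P0 : Subgroup G).map ((MulAut.conj x)⁻¹ * MulAut.conj x).toMonoidHom := by rw [Subgroup.map_map]; rfl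
        _ = P0 := by rw [inv_mul_cancel]; exact Subgroup.map_id _
  obtain ⟨R⟩ : Nonempty (Sylow r B) := inferInstance
  set R' : Subgroup (MulAut G) := (R : Subgroup B).map B.subtype with hR'
  have hRle : R' ≤ B := Subgroup.map_subtype_le _
  have hcR : Nat.card R' = Nat.card (R : Subgroup B) :=
    (Nat.card_congr ((R : Subgroup B).equivMapOfInjective B.subtype B.subtype_injective).toEquiv).symm
  have hRp : IsPGroup r R' := R.isPGroup'.map B.subtype
  have hstep : r ^ k ∣ Nat.card (G ⧸ Subgroup.center G) * Nat.card R' := by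
    have h1 : r ^ k ∣ (Nat.card (G ⧸ Subgroup.center G) * Nat.card R') * (R : Subgroup B).index := by
      refine (hk.trans hA).trans ?_
      rw [hcR, mul_assoc, Subgroup.card_mul_index]
    have h2 : Nat.Coprime (r ^ k) (R : Subgroup B).index :=
      Nat.Coprime.pow_left k ((Nat.Prime.coprime_iff_not_dvd hr).mpr R.not_dvd_index)
    exact h2.dvd_of_dvd_mul_right h1
  have hex : ∀ (p : ℕ) (hp : p ∈ (Nat.card G).primeFactors), ∃ Q : Sylow p G,
      ∀ ρ ∈ R', (Q : Subgroup G).map ρ.toMonoidHom = Q := by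
    intro p hp
    have hpp : p.Prime := Nat.prime_of_mem_primeFactors hp
    by_cases hpr : p = r
    · subst hpr
      exact ⟨P0, fun ρ hρ => (hRle hρ).2⟩
    · haveI : Fact p.Prime := ⟨hpp⟩
      refine inv_sylow r p G H hH ?_ R' hRp (fun ρ hρ => (hRle hρ).1)
      obtain ⟨n, hn⟩ := hHi
      rw [hn]
      intro h
      exact hpr ((Nat.prime_dvd_prime_iff_eq hpp hr).mp (hpp.dvd_of_dvd_pow h))
  choose Q hQ using hex
  have h3 := card_R_dvd G Q R' hQ
  have h4 : ∏ p : (Nat.card G).primeFactors, Nat.card (MulAut (↥(Q p.1 p.2 : Subgroup G))) =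
      ∏ p : (Nat.card G).primeFactors, Nat.card (MulAut (↥(P p.1 p.2 : Subgroup G))) := by
    refine Finset.prod_congr rfl fun p _ => ?_
    haveI : Fact p.1.Prime := ⟨Nat.prime_of_mem_primeFactors p.2⟩
    exact card_mulAut_sylow p.1 G _ _
  rw [h4] at h3
  exact hstep.trans (Nat.mul_dvd_mul_left _ h3)



theorem rs_r_part (G : Type) [Group G] [Finite G] (P : ∀ p ∈ (Nat.card G).primeFactors, Sylow p G)
    (r : ℕ) (hr : r.Prime) (hs : RSoluble r G) (k : ℕ) (hk : r ^ k ∣ Nat.card (MulAut G)) :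
    r ^ k ∣ Nat.card (G ⧸ Subgroup.center G) *
      ∏ p : (Nat.card G).primeFactors, Nat.card (MulAut (↥(P p.1 p.2 : Subgroup G))) := by
  obtain ⟨H, hH, hHi⟩ := rs_hall_exists r hr (Nat.card G) G rfl hs
  refine r_part G P r hr H hH hHi ?_ k hk
  intro α
  have hcard : Nat.card (H.map α.toMonoidHom) = Nat.card H :=
    (Nat.card_congr (H.equivMapOfInjective α.toMonoidHom α.injective).toEquiv).symm
  have hind : (H.map α.toMonoidHom).index = H.index := by
    have h1 := H.card_mul_index
    have h2 := (H.map α.toMonoidHom).card_mul_index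
    rw [hcard, ← h1] at h2
    exact Nat.eq_of_mul_eq_mul_left Nat.card_pos h2
  exact rs_hall_conj r hr (Nat.card G) G rfl hs H (H.map α.toMonoidHom) hH hHi (hcard ▸ hH) (hind ▸ hHi)

theorem rs_dvd (G : Type) [Group G] [Finite G] (P : ∀ p ∈ (Nat.card G).primeFactors, Sylow p G) (d : ℕ)
    (hd : d ∣ Nat.card (MulAut G)) (hs : ∀ r : ℕ, r.Prime → r ∣ d → RSoluble r G) :
    d ∣ Nat.card (G ⧸ Subgroup.center G) *
      ∏ p : (Nat.card G).primeFactors, Nat.card (MulAut (↥(P p.1 p.2 : Subgroup G))) := by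
  rw [Nat.dvd_iff_prime_pow_dvd_dvd]
  intro r k hr hk
  rcases Nat.eq_zero_or_pos k with rfl | hk0
  · simp
  · exact rs_r_part G P r hr (hs r hr ((dvd_pow_self r hk0.ne').trans hk)) k (hk.trans hd)

end Pool.Agent.Helper128.AutDiv
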